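import Pool.Agent.R107.TruncTheta

/-!
# Non-negativity of a truncated theta series with triangular exponents

For every `k ≥ 1` all the coefficients of
`F_k(q) = ∏_{i ≥ 1} (1 + q^i) * ∑_{n ≥ 0} (-1)^{T_n} q^{T_{n + 2k}}`, `T_n = n (n + 1) / 2`,
are non-negative.

Idea of the proof. By Euler's theorem `∏ (1 + q^i)` is the generating function of the partitions
into odd parts. Let `p(n)` be the number of partitions of `n` into the parts `1`, `3`, `5`; then
`30 p(n) = n^2 + 9 n + c`, with `8 ≤ c ≤ 30`. It is enough to show that the truncated theta series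
divided by `(1 - q)(1 - q^3)(1 - q^5)` has non-negative coefficients. Its coefficient at `q^N` is
the alternating sum over `J ≥ k` of `p(N - T_{2J}) - p(N - T_{2J+1})`, and `30` times this
difference is `g(J) + g(J+1)` up to `22`, where `g(J) = J (2N + 12 - 4J^2)`. So the sum telescopes;
the main term `g(k)` wins if `T_{70} ≤ N`, and the other `N` are checked directly.
-/

set_option autoImplicit false

namespace Pool.Agent.Results.MP_1cbc82_co.NonnegativeH29

open PowerSeries PowerSeries.WithPiTopology Finset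
open Pool.Agent.R107.TruncTheta

/-- The triangular number `T_n = n (n + 1) / 2`. -/
def tri (n : ℕ) : ℕ := n * (n + 1) / 2

/-- The series `F_k(q) = ∏_{i ≥ 1} (1 + q^i) * ∑_{n ≥ 0} (-1)^{T_n} q^{T_{n + 2k}}`, as a formal
power series with integer coefficients. -/
noncomputable def F (k : ℕ) : ℤ⟦X⟧ :=
  (∏' i : ℕ, (1 + X ^ (i + 1))) * ∑' n : ℕ, (-1) ^ tri n * X ^ tri (n + 2 * k)

lemma two_tri (n : ℕ) : 2 * tri n = n * (n + 1) := by
  unfold tri
  exact Nat.mul_div_cancel' (Nat.even_mul_succ_self n).two_dvd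

lemma le_tri (n : ℕ) : n ≤ tri n := by
  have h := two_tri n
  rcases n with _ | n
  · simp
  · nlinarith

lemma tri_mono : Monotone tri := by
  intro a b h
  have h1 := two_tri a
  have h2 := two_tri b
  have : a * (a + 1) ≤ b * (b + 1) := Nat.mul_le_mul h (by omega)
  omega

lemma tri_even (J : ℕ) : tri (2 * J) = J * (2 * J + 1) := by
  have h := two_tri (2 * J)
  have : 2 * (J * (2 * J + 1)) = 2 * J * (2 * J + 1) := by ring
  omega

lemma tri_odd (J : ℕ) : tri (2 * J + 1) = (J + 1) * (2 * J + 1) := by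
  have h := two_tri (2 * J + 1)
  have : 2 * ((J + 1) * (2 * J + 1)) = (2 * J + 1) * (2 * J + 1 + 1) := by ring
  omega

/-- The truncated theta series as an infinite sum. -/
lemma hasSum_Th (k : ℕ) :
    HasSum (fun n : ℕ => (-1 : ℤ⟦X⟧) ^ tri n * X ^ tri (n + 2 * k)) (Th tri k) := by
  rw [PowerSeries.WithPiTopology.hasSum_iff_hasSum_coeff]
  intro N
  have hc : ∀ n : ℕ, coeff N ((-1 : ℤ⟦X⟧) ^ tri n * X ^ tri (n + 2 * k)) =
      if tri (n + 2 * k) = N then (-1 : ℤ) ^ (n * (n + 1) / 2) else 0 := by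
    intro n
    have e0 : (-1 : ℤ⟦X⟧) ^ tri n = C ((-1 : ℤ) ^ tri n) := by simp
    rw [e0, PowerSeries.coeff_C_mul, PowerSeries.coeff_X_pow]
    unfold tri
    split_ifs with h1 h2 h2
    · simp
    · exact absurd h1.symm h2
    · exact absurd h2.symm h1
    · simp
  unfold Th
  rw [PowerSeries.coeff_mk]
  simp only [hc]
  apply hasSum_sum_of_ne_finset_zero
  intro x hx
  rw [Finset.mem_range] at hx
  have h1 := le_tri (x + 2 * k)
  rw [if_neg (by omega)]

/-- Sanity check: the infinite product in the definition of `F` converges. -/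
lemma multipliable_prod : Multipliable fun i : ℕ => (1 + X ^ (i + 1) : ℤ⟦X⟧) := by
  apply PowerSeries.WithPiTopology.multipliable_one_add_of_tendsto_order_atTop_nhds_top
  refine ENat.tendsto_nhds_top_iff_natCast_lt.mpr fun n => Filter.eventually_atTop.mpr ⟨n, ?_⟩
  intro m hm
  rw [PowerSeries.order_X_pow]
  norm_cast
  omega

/-- Sanity check: the infinite sum in the definition of `F` converges. -/
lemma summable_sum (k : ℕ) :
    Summable fun n : ℕ => (-1 : ℤ⟦X⟧) ^ tri n * X ^ tri (n + 2 * k) :=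
  (hasSum_Th k).summable

lemma p_mono {x y : ℤ} (h : x ≤ y) : p x ≤ p y := by
  rcases lt_or_ge x 0 with h0 | h0
  · rw [p_neg h0]
    exact p_nonneg y
  · rw [p_eq_q (by omega), p_eq_q (by omega)]
    unfold q
    have : x ^ 2 + 9 * x ≤ y ^ 2 + 9 * y := by nlinarith
    have := Int.ediv_le_ediv (show (0 : ℤ) < 30 by norm_num) this
    omega

/-- The main term. -/
def g (J : ℕ) (N : ℤ) : ℤ := J * (2 * N + 12 - 4 * J ^ 2)

lemma g_est (J : ℕ) (N : ℤ) (h : (tri (2 * J + 1) : ℤ) ≤ N) :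
    |30 * D tri J N - (g J N + g (J + 1) N)| ≤ 22 := by
  have e0 : (tri (2 * J) : ℤ) = J * (2 * J + 1) := by rw [tri_even]; push_cast; ring
  have e1 : (tri (2 * J + 1) : ℤ) = (J + 1) * (2 * J + 1) := by rw [tri_odd]; push_cast; ring
  unfold D
  rw [e1] at h
  rw [e0, e1]
  have hJ : (0 : ℤ) ≤ J := Int.natCast_nonneg J
  have b1 := p_bounds (n := N - J * (2 * J + 1)) (by linarith)
  have b2 := p_bounds (n := N - (J + 1) * (2 * J + 1)) (by linarith)
  have e2 : g J N + g (J + 1) N =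
      ((N - J * (2 * J + 1)) ^ 2 + 9 * (N - J * (2 * J + 1))) -
      ((N - (J + 1) * (2 * J + 1)) ^ 2 + 9 * (N - (J + 1) * (2 * J + 1))) := by
    unfold g
    push_cast
    ring
  rw [e2, abs_le]
  constructor <;> linarith [b1.1, b1.2, b2.1, b2.2]

lemma aux1 (M y P : ℤ) (hM : 35 ≤ M) (hy0 : 0 ≤ y) (hy1 : y ≤ 2 * M)
    (b1 : y ^ 2 + 9 * y + 8 ≤ P) (b2 : P ≤ y ^ 2 + 9 * y + 30) :
    |P - M * (2 * y + 2 * M + 12)| ≤ 3 * M ^ 2 + 14 * M + 34 := by
  have s1 : 0 ≤ (y - M) ^ 2 := sq_nonneg _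
  have s2 : 0 ≤ y * (2 * M - y) := mul_nonneg hy0 (by linarith)
  have s3 : 0 ≤ M ^ 2 := sq_nonneg _
  rw [abs_le]
  constructor <;> linarith

lemma aux2 (M y P G : ℤ) (hM : 35 ≤ M) (hy0 : 0 ≤ y) (hy1 : y ≤ 2 * M + 1)
    (b : |P - (G + (M + 1) * (2 * y - 2 * M + 10))| ≤ 22) :
    |P - G| ≤ 3 * M ^ 2 + 14 * M + 34 := by
  rw [abs_le] at b
  have s1 : 0 ≤ (M + 1) * y := mul_nonneg (by linarith) hy0
  have s2 : (M + 1) * y ≤ (M + 1) * (2 * M + 1) := mul_le_mul_of_nonneg_left hy1 (by linarith)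
  have s3 : 0 ≤ M ^ 2 := sq_nonneg _
  rw [abs_le]
  constructor <;> linarith [b.1, b.2]

lemma aux3 (M k N : ℤ) (hk1 : 1 ≤ k) (hk2 : k ≤ M - 1) (h : M * (2 * M + 1) ≤ N) :
    4 * M ^ 2 + 2 * M + 8 ≤ k * (2 * N + 12 - 4 * k ^ 2) := by
  have a1 : k * (4 * M ^ 2 + 2 * M + 12 - 4 * k ^ 2) ≤ k * (2 * N + 12 - 4 * k ^ 2) := by
    apply mul_le_mul_of_nonneg_left _ (by linarith)
    linarith
  have a3 : k ^ 2 ≤ (M - 1) ^ 2 := pow_le_pow_left₀ (by linarith) hk2 2
  have a2 : 0 ≤ (k - 1) * (4 * M ^ 2 + 2 * M + 12 - 4 * (k ^ 2 + k + 1)) := by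
    apply mul_nonneg (by linarith)
    linarith
  linarith

/-- The large cases. -/
lemma large (M N k : ℕ) (hM : 35 ≤ M) (h1 : tri (2 * M) ≤ N) (h2 : N < tri (2 * (M + 1)))
    (hk1 : 1 ≤ k) (hk : k ≤ M) : 0 ≤ cc tri (M + 1 - k) k N := by
  have f0 : (tri (2 * M) : ℤ) = M * (2 * M + 1) := by rw [tri_even]; push_cast; ring
  have f1 : (tri (2 * M + 1) : ℤ) = (M + 1) * (2 * M + 1) := by rw [tri_odd]; push_cast; ring
  have f2 : (tri (2 * (M + 1)) : ℤ) = (M + 1) * (2 * M + 3) := by
    rw [tri_even]; push_cast; ring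
  have h1' : (M : ℤ) * (2 * M + 1) ≤ N := by rw [← f0]; exact_mod_cast h1
  have h2' : (N : ℤ) < (M + 1) * (2 * M + 3) := by rw [← f2]; exact_mod_cast h2
  have hM' : (35 : ℤ) ≤ M := by exact_mod_cast hM
  rcases Nat.lt_or_ge k M with hkM | hkM
  · obtain ⟨L, hL⟩ : ∃ L, M = k + L := ⟨M - k, by omega⟩
    have hLM : M + 1 - k = L + 1 := by omega
    rw [hLM, cc_append]
    have hest := cc_est tri g g_est L k N (fun i hi => by
      have : tri (2 * (k + i) + 1) ≤ tri (2 * M) := tri_mono (by omega)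
      exact_mod_cast this.trans h1)
    rw [← hL] at hest
    have hlast : |30 * cc tri 1 (k + L) N - g M N| ≤ 3 * (M : ℤ) ^ 2 + 14 * M + 34 := by
      rw [← hL]
      have e : cc tri 1 M N = D tri M N := by simp [cc]
      rw [e]
      rcases lt_or_ge (N : ℤ) ((M + 1) * (2 * M + 1)) with h3 | h3
      · have e3 : D tri M N = p (N - M * (2 * M + 1)) := by
          unfold D
          rw [f0, f1, p_neg (n := (N : ℤ) - (M + 1) * (2 * M + 1)) (by linarith), sub_zero]
        rw [e3]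
        obtain ⟨y, hy⟩ : ∃ y : ℤ, y = N - M * (2 * M + 1) := ⟨_, rfl⟩
        have hN : (N : ℤ) = y + M * (2 * M + 1) := by linarith
        have hy0 : 0 ≤ y := by linarith
        have hy1 : y ≤ 2 * M := by linarith
        have b := p_bounds hy0
        have e4 : g M N = M * (2 * y + 2 * M + 12) := by
          unfold g; rw [hN]; ring
        rw [← hy, e4]
        exact aux1 M y _ hM' hy0 hy1 b.1 b.2
      · have b := g_est M N (by rw [f1]; exact h3)
        obtain ⟨y, hy⟩ : ∃ y : ℤ, y = N - (M + 1) * (2 * M + 1) := ⟨_, rfl⟩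
        have hN : (N : ℤ) = y + (M + 1) * (2 * M + 1) := by linarith
        have hy0 : 0 ≤ y := by linarith
        have hy1 : y ≤ 2 * M + 1 := by linarith
        have e4 : g (M + 1) N = (M + 1) * (2 * y - 2 * M + 10) := by
          unfold g; rw [hN]; push_cast; ring
        rw [e4] at b
        exact aux2 M y _ _ hM' hy0 hy1 b
    have hgk : 4 * (M : ℤ) ^ 2 + 2 * M + 8 ≤ g k N := by
      have hk1' : (1 : ℤ) ≤ k := by exact_mod_cast hk1
      have hk2' : (k : ℤ) ≤ M - 1 := by
        have : (k : ℤ) < M := by exact_mod_cast hkM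
        linarith
      exact aux3 M k N hk1' hk2' h1'
    have hL' : (L : ℤ) ≤ M - 1 := by
      have : (M : ℤ) = k + L := by exact_mod_cast hL
      have hk1' : (1 : ℤ) ≤ k := by exact_mod_cast hk1
      linarith
    rw [abs_le] at hest hlast
    have hfin : 0 ≤ 4 * (M : ℤ) ^ 2 + 2 * M + 8 - 22 * L - (3 * (M : ℤ) ^ 2 + 14 * M + 34) := by
      nlinarith
    rcases neg_one_pow_eq_or ℤ L with hs | hs
    · rw [hs] at hest ⊢
      linarith [hest.1, hest.2, hlast.1, hlast.2]
    · rw [hs] at hest ⊢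
      linarith [hest.1, hest.2, hlast.1, hlast.2]
  · have hkM' : k = M := by omega
    subst hkM'
    rw [show k + 1 - k = 1 by omega]
    have e : cc tri 1 k N = D tri k N := by simp [cc]
    rw [e]
    unfold D
    have : p ((N : ℤ) - (tri (2 * k + 1) : ℕ)) ≤ p ((N : ℤ) - (tri (2 * k) : ℕ)) := by
      apply p_mono
      have : (tri (2 * k) : ℤ) ≤ (tri (2 * k + 1) : ℤ) := by
        exact_mod_cast tri_mono (show 2 * k ≤ 2 * k + 1 by omega)
      linarith
    linarith

/-- The number of partitions of `N - x` into the parts `1`, `3`, `5`, with natural numbers. -/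
def PN (N x : ℕ) : ℕ := bif Nat.ble x N then ((N - x) * (N - x + 9)) / 30 + 1 else 0

lemma PN_eq (N x : ℕ) : (PN N x : ℤ) = p ((N : ℤ) - x) := by
  unfold PN
  rcases Nat.lt_or_ge N x with h | h
  · rw [show Nat.ble x N = false by simpa [Nat.ble_eq, ← Bool.not_eq_true] using h]
    rw [p_neg (by omega)]
    rfl
  · rw [show Nat.ble x N = true by simpa [Nat.ble_eq] using h]
    obtain ⟨y, rfl⟩ := Nat.exists_eq_add_of_le h
    have e : ((x + y : ℕ) : ℤ) - (x : ℤ) = y := by push_cast; ring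
    rw [e, p_eq_q (by omega)]
    simp only [cond_true, Nat.add_sub_cancel_left]
    unfold q
    push_cast
    rw [show (y : ℤ) * (y + 9) = (y : ℤ) ^ 2 + 9 * y by ring]

/-- The check with natural numbers. -/
def chkN (N : ℕ) : ℕ → ℕ → Bool
  | 0, _ => true
  | J + 1, acc =>
    Nat.ble (acc + PN N ((J + 2) * (2 * J + 3))) (PN N ((J + 1) * (2 * J + 3))) &&
      chkN N J (PN N ((J + 1) * (2 * J + 3)) - (acc + PN N ((J + 2) * (2 * J + 3))))

lemma chk_of_chkN (N J acc : ℕ) (h : chkN N J acc = true) : chk tri (N : ℤ) J (acc : ℤ) = true := by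
  induction J generalizing acc with
  | zero => rfl
  | succ J ih =>
    rw [chkN, Bool.and_eq_true] at h
    have h1 : acc + PN N ((J + 2) * (2 * J + 3)) ≤ PN N ((J + 1) * (2 * J + 3)) :=
      Nat.le_of_ble_eq_true h.1
    have e1 : tri (2 * (J + 1)) = (J + 1) * (2 * J + 3) := by rw [tri_even]; ring
    have e2 : tri (2 * (J + 1) + 1) = (J + 2) * (2 * J + 3) := by rw [tri_odd]; ring
    have e3 : D tri (J + 1) N - acc =
        ((PN N ((J + 1) * (2 * J + 3)) - (acc + PN N ((J + 2) * (2 * J + 3))) : ℕ) : ℤ) := by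
      unfold D
      rw [e1, e2, ← PN_eq, ← PN_eq, Nat.cast_sub h1]
      push_cast
      ring
    rw [chk, Bool.and_eq_true, decide_eq_true_eq, e3]
    exact ⟨Int.natCast_nonneg _, ih _ h.2⟩

/-- The check for all `N < B`. -/
def allN : ℕ → Bool
  | 0 => true
  | N + 1 => chkN N 34 0 && allN N

lemma allN_spec (B : ℕ) (h : allN B = true) : ∀ N < B, chkN N 34 0 = true := by
  induction B with
  | zero => intro N hN; omega
  | succ B ih =>
    rw [allN, Bool.and_eq_true] at h
    intro N hN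
    rcases Nat.lt_or_ge N B with h1 | h1
    · exact ih h.2 N h1
    · have : N = B := by omega
      rw [this]
      exact h.1

set_option maxRecDepth 100000 in
lemma all_true : allN 2485 = true := by
  decide +kernel

/-- The small cases are checked directly. -/
lemma small_chk : ∀ N < tri (2 * (34 + 1)), chk tri (N : ℤ) 34 0 = true := by
  intro N hN
  have h : tri (2 * (34 + 1)) = 2485 := by rfl
  rw [h] at hN
  have := chk_of_chkN N 34 0 (allN_spec 2485 all_true N hN)
  simpa using this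

/-- **Theorem.** For every `k ≥ 1`, every coefficient of
`F_k(q) = ∏_{i ≥ 1} (1 + q^i) * ∑_{n ≥ 0} (-1)^{T_n} q^{T_{n + 2k}}` is non-negative. -/
theorem result (k : ℕ) (hk : 1 ≤ k) (N : ℕ) : 0 ≤ coeff N (F k) := by
  have e : F k = A * Th tri k := by
    unfold F A
    rw [(hasSum_Th k).tsum_eq]
  rw [e]
  apply coeff_nonneg_of tri le_tri tri_mono (by rfl) k
  intro M N h1 h2 h3
  rcases Nat.lt_or_ge M 35 with h | h
  · exact small_of_chk tri tri_mono 34 small_chk k hk M N (by omega) h2 h3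
  · exact large M N k h h1 h2 hk h3

end Pool.Agent.Results.MP_1cbc82_co.NonnegativeH29
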